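import Pool.Agent.H48.RN.Stmts3

/-! Module LC0 of project RN: a split node has discriminant zero. -/

set_option autoImplicit false

namespace Pool.RN

theorem s_LC0 : S_LC0 := by
  intro R _ W hW
  obtain ⟨C, a, -, hC⟩ := hW
  have h1 := WeierstrassCurve.variableChange_Δ W C
  have h2 : (C • W).Δ = 0 := by
    rw [hC]
    simp only [WeierstrassCurve.Δ, WeierstrassCurve.b₂, WeierstrassCurve.b₄,
      WeierstrassCurve.b₆, WeierstrassCurve.b₈]
    ring
  rw [h2] at h1
  have h3 : (C.u : R) ^ 12 * ((↑(C.u⁻¹) : R) ^ 12 * W.Δ) = W.Δ := by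
    rw [← mul_assoc, ← mul_pow, C.u.mul_inv, one_pow, one_mul]
  rw [← h3, ← h1, mul_zero]

end Pool.RN
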