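import Pool.Agent.H48.RN.Stmts3

/-! Module LC2 of project RN: split nodes in characteristic 2. -/

set_option autoImplicit false

namespace Pool.RN

theorem s_LC2 : S_LC2 := by
  intro K _ h2 W hΔ ha1
  constructor
  · rintro ⟨C, a, -, hC⟩
    have hv : (↑(C.u⁻¹) : K) ≠ 0 := C.u⁻¹.ne_zero
    have e2 : (↑(C.u⁻¹) : K) ^ 2 * (W.a₂ - C.s * W.a₁ + 3 * C.r - C.s ^ 2) = 0 := by
      rw [← WeierstrassCurve.variableChange_a₂, hC]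
    have e3 : (↑(C.u⁻¹) : K) ^ 3 * (W.a₃ + C.r * W.a₁ + 2 * C.t) = 0 := by
      rw [← WeierstrassCurve.variableChange_a₃, hC]
    have f2 := (mul_eq_zero.1 e2).resolve_left (pow_ne_zero 2 hv)
    have f3 := (mul_eq_zero.1 e3).resolve_left (pow_ne_zero 3 hv)
    refine ⟨C.s / W.a₁, ?_⟩
    have h4 : ((C.s / W.a₁) ^ 2 + C.s / W.a₁) * W.a₁ ^ 3 = C.s ^ 2 * W.a₁ + C.s * W.a₁ ^ 2 := by
      field_simp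
    rw [h4]
    linear_combination (-W.a₁) * f2 - f3 + (2 * C.r * W.a₁ + C.t) * h2
  · rintro ⟨z, hz⟩
    obtain ⟨r, hr⟩ : ∃ r : K, r * W.a₁ = W.a₃ := ⟨W.a₃ / W.a₁, div_mul_cancel₀ _ ha1⟩
    obtain ⟨t, ht⟩ : ∃ t : K, t * W.a₁ = W.a₄ + r ^ 2 :=
      ⟨(W.a₄ + r ^ 2) / W.a₁, div_mul_cancel₀ _ ha1⟩
    have hT : t * W.a₁ ^ 3 = W.a₁ ^ 2 * W.a₄ + W.a₃ ^ 2 := by
      linear_combination W.a₁ ^ 2 * ht + (r * W.a₁ + W.a₃) * hr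
    have hD := hΔ
    simp only [WeierstrassCurve.Δ, WeierstrassCurve.b₂, WeierstrassCurve.b₄,
      WeierstrassCurve.b₆, WeierstrassCurve.b₈] at hD
    refine ⟨⟨1, r, W.a₁ * z, t⟩, W.a₁, isUnit_iff_ne_zero.2 ha1, ?_⟩
    rw [WeierstrassCurve.variableChange_def]
    ext
    · simp only [inv_one, Units.val_one, one_mul]
      linear_combination (W.a₁ * z) * h2
    · simp only [inv_one, Units.val_one, one_mul, one_pow]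
      refine mul_left_cancel₀ ha1 ?_
      linear_combination (-1) * hz + 3 * hr + W.a₃ * h2
    · simp only [inv_one, Units.val_one, one_mul, one_pow]
      linear_combination hr + (W.a₃ + t) * h2
    · simp only [inv_one, Units.val_one, one_mul, one_pow]
      linear_combination (-1) * ht - (W.a₁ * z) * hr +
        (-(W.a₁ * z) * W.a₃ + r * W.a₂ + r ^ 2 - W.a₁ * z * t) * h2
    · simp only [inv_one, Units.val_one, one_mul, one_pow]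
      refine mul_left_cancel₀ (pow_ne_zero 6 ha1) ?_
      linear_combination (W.a₁ ^ 5 * W.a₄ + W.a₁ ^ 4 * W.a₂ * (r * W.a₁ + W.a₃) +
        W.a₁ ^ 3 * (r ^ 2 * W.a₁ ^ 2 + r * W.a₁ * W.a₃ + W.a₃ ^ 2) - W.a₁ ^ 6 * t) * hr +
        (-2 * W.a₁ ^ 3 * W.a₃ - (t * W.a₁ ^ 3 + W.a₁ ^ 2 * W.a₄ + W.a₃ ^ 2)) * hT + hD +
      ((1)*W.a₁^6*W.a₆^1 + (-1)*W.a₁^5*W.a₃^1*W.a₄^1 + (1)*W.a₁^4*W.a₂^1*W.a₃^2 +
      (6)*W.a₁^4*W.a₂^1*W.a₆^1 + (-1)*W.a₁^4*W.a₄^2 + (-4)*W.a₁^3*W.a₂^1*W.a₃^1*W.a₄^1 +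
      (-1)*W.a₁^3*W.a₃^3 + (-18)*W.a₁^3*W.a₃^1*W.a₆^1 + (4)*W.a₁^2*W.a₂^2*W.a₃^2 +
      (24)*W.a₁^2*W.a₂^2*W.a₆^1 + (-4)*W.a₁^2*W.a₂^1*W.a₄^2 + (14)*W.a₁^2*W.a₃^2*W.a₄^1 +
      (-36)*W.a₁^2*W.a₄^1*W.a₆^1 + (-8)*W.a₁^1*W.a₂^2*W.a₃^1*W.a₄^1 +
      (-18)*W.a₁^1*W.a₂^1*W.a₃^3 + (-72)*W.a₁^1*W.a₂^1*W.a₃^1*W.a₆^1 +
      (48)*W.a₁^1*W.a₃^1*W.a₄^2 + (8)*W.a₂^3*W.a₃^2 + (32)*W.a₂^3*W.a₆^1 + (-8)*W.a₂^2*W.a₄^2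
      + (-36)*W.a₂^1*W.a₃^2*W.a₄^1 + (-144)*W.a₂^1*W.a₄^1*W.a₆^1 + (13)*W.a₃^4 +
      (108)*W.a₃^2*W.a₆^1 + (32)*W.a₄^3 + (216)*W.a₆^2) * h2

end Pool.RN
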