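import Pool.Agent.H48.RN.Stmts3

/-! Module LC3 of project RN: split nodes in characteristic 3. -/

set_option autoImplicit false

namespace Pool.RN

theorem s_LC3 : S_LC3 := by
  intro K _ h3 W hΔ hb2
  constructor
  · rintro ⟨C, a, -, hC⟩
    have hb : (↑(C.u⁻¹) : K) ^ 2 * (W.b₂ + 12 * C.r) = a ^ 2 := by
      rw [← WeierstrassCurve.variableChange_b₂, hC]
      simp only [WeierstrassCurve.b₂]
      ring
    have hu : (C.u : K) * (↑(C.u⁻¹) : K) = 1 := C.u.mul_inv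
    refine ⟨C.u * a, ?_⟩
    linear_combination (C.u : K) ^ 2 * hb -
      (W.b₂ + 12 * C.r) * ((C.u : K) * (↑(C.u⁻¹) : K) + 1) * hu - 4 * C.r * h3
  · rintro ⟨c, hc⟩
    have hc0 : c ≠ 0 := by
      rintro rfl
      exact hb2 (by rw [hc, mul_zero])
    obtain ⟨r, hr⟩ : ∃ r : K, r * W.b₂ = W.a₄ - W.a₁ * W.a₃ :=
      ⟨(W.a₄ - W.a₁ * W.a₃) / W.b₂, div_mul_cancel₀ _ hb2⟩
    have hD := hΔ
    simp only [WeierstrassCurve.Δ, WeierstrassCurve.b₂, WeierstrassCurve.b₄,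
      WeierstrassCurve.b₆, WeierstrassCurve.b₈] at hD
    have hB : W.b₂ = W.a₁ ^ 2 + 4 * W.a₂ := rfl
    rw [hB] at hc hr hb2
    refine ⟨⟨1, r, W.a₁ - c, W.a₃ + r * W.a₁⟩, c, isUnit_iff_ne_zero.2 hc0, ?_⟩
    rw [WeierstrassCurve.variableChange_def]
    ext
    · simp only [inv_one, Units.val_one, one_mul]
      linear_combination (W.a₁ - c) * h3
    · simp only [inv_one, Units.val_one, one_mul, one_pow]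
      linear_combination hc + (-W.a₂ - W.a₁ ^ 2 + W.a₁ * c + r) * h3
    · simp only [inv_one, Units.val_one, one_mul, one_pow]
      linear_combination (W.a₃ + r * W.a₁) * h3
    · simp only [inv_one, Units.val_one, one_mul, one_pow]
      linear_combination (-1) * hr + (-W.a₁ * W.a₃ + c * W.a₃ + 2 * r * W.a₂ - r * W.a₁ ^ 2 +
        c * r * W.a₁ + r ^ 2) * h3
    · simp only [inv_one, Units.val_one, one_mul, one_pow]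
      refine mul_left_cancel₀ (pow_ne_zero 3 hb2) ?_
      linear_combination ((W.a₄ - 4 * W.a₁ * W.a₃) * (W.a₁ ^ 2 + 4 * W.a₂) ^ 2 +
        (W.a₂ - 2 * W.a₁ ^ 2) * (W.a₁ ^ 2 + 4 * W.a₂) *
          (r * (W.a₁ ^ 2 + 4 * W.a₂) + (W.a₄ - W.a₁ * W.a₃)) +
        (r ^ 2 * (W.a₁ ^ 2 + 4 * W.a₂) ^ 2 + r * (W.a₁ ^ 2 + 4 * W.a₂) * (W.a₄ - W.a₁ * W.a₃) +
          (W.a₄ - W.a₁ * W.a₃) ^ 2)) * hr - hD +
      ((-6)*W.a₁^3*W.a₂^1*W.a₃^1*W.a₄^1 + (12)*W.a₁^3*W.a₃^1*W.a₆^1 +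
      (-12)*W.a₁^2*W.a₂^2*W.a₃^2 + (3)*W.a₁^2*W.a₂^1*W.a₄^2 + (-9)*W.a₁^2*W.a₃^2*W.a₄^1 +
      (24)*W.a₁^2*W.a₄^1*W.a₆^1 + (-24)*W.a₁^1*W.a₂^2*W.a₃^1*W.a₄^1 +
      (12)*W.a₁^1*W.a₂^1*W.a₃^3 + (48)*W.a₁^1*W.a₂^1*W.a₃^1*W.a₆^1 +
      (-33)*W.a₁^1*W.a₃^1*W.a₄^2 + (-48)*W.a₂^3*W.a₃^2 + (12)*W.a₂^2*W.a₄^2 +
      (24)*W.a₂^1*W.a₃^2*W.a₄^1 + (96)*W.a₂^1*W.a₄^1*W.a₆^1 + (-9)*W.a₃^4 +
      (-72)*W.a₃^2*W.a₆^1 + (-21)*W.a₄^3 + (-144)*W.a₆^2) * h3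

end Pool.RN
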